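import Pool.Agent.Lib.MP_627919_pr.Defs
import Pool.Agent.Lib.MP_627919_pr.Main

namespace Pool.Agent.Results.MP_627919_pr.Percolates

open MeasureTheory Pool.Agent.Lib.MP_627919_pr

/-- The bidirectional 3-neighbour graph on the square lattice percolates. -/
theorem result :
    IsProbabilityMeasure (law 3 2) ∧ MeasurableSet (Perc 2) ∧ 0 < law 3 2 (Perc 2) :=
  ⟨isProb_law, measurableSet_perc 2, perc_pos⟩

end Pool.Agent.Results.MP_627919_pr.Percolates
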